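import Mathlib

/-!
# Arithmetic formulas and quantifier-free sentences of high-school arithmetic
-/

set_option autoImplicit false

namespace Pool.Agent.Z85.HS

/-- Arithmetic formulas in positive constants, variables, `+`, `*` and powers with constant
exponents. -/
inductive AF : Type
  | var (i : ℕ)
  | const (n : ℕ+)
  | add (a b : AF)
  | mul (a b : AF)
  | pow (n : ℕ+) (a : AF)

/-- The polynomial of a formula. -/
noncomputable def AF.poly : AF → MvPolynomial ℕ ℤ
  | var i => MvPolynomial.X i
  | const n => MvPolynomial.C (n : ℤ)
  | add a b => a.poly + b.poly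
  | mul a b => a.poly * b.poly
  | pow n a => a.poly ^ (n : ℕ)

/-- A formula in prefix notation: the symbol `(0, i)` is the `i`-th variable, `(1, n)` is the
constant `n`, `(2, 0)` is `+`, `(3, 0)` is `*` and `(4, n)` is the `n`-th power. -/
def AF.str : AF → List (ℕ × ℕ)
  | var i => [(0, i)]
  | const n => [(1, (n : ℕ))]
  | add a b => (2, 0) :: (a.str ++ b.str)
  | mul a b => (3, 0) :: (a.str ++ b.str)
  | pow n a => (4, (n : ℕ)) :: a.str

/-- Closed terms of high-school arithmetic, with a constant for every positive integer. -/
inductive HT : Type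
  | const (n : ℕ+)
  | add (a b : HT)
  | mul (a b : HT)
  | pow (a b : HT)

/-- The value of a closed term, a positive integer. -/
def HT.val : HT → ℕ+
  | const n => n
  | add a b => a.val + b.val
  | mul a b => a.val * b.val
  | pow a b => a.val ^ (b.val : ℕ)

/-- A closed term in prefix notation: the symbol `(0, n)` is the constant `n`, `(1, 0)` is `+`,
`(2, 0)` is `*` and `(3, 0)` is the exponentiation (followed by the exponent and the base). -/
def HT.str : HT → List (ℕ × ℕ)
  | const n => [(0, (n : ℕ))]
  | add a b => (1, 0) :: (a.str ++ b.str)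
  | mul a b => (2, 0) :: (a.str ++ b.str)
  | pow a b => (3, 0) :: (b.str ++ a.str)

/-- Quantifier-free sentences. -/
inductive QF : Type
  | eq (s t : HT)
  | not (a : QF)
  | and (a b : QF)
  | or (a b : QF)

/-- Truth in high-school arithmetic. -/
def QF.Holds : QF → Prop
  | eq s t => s.val = t.val
  | not a => ¬ a.Holds
  | and a b => a.Holds ∧ b.Holds
  | or a b => a.Holds ∨ b.Holds

/-- A sentence in prefix notation: the symbols `(4, 0)`, `(5, 0)`, `(6, 0)`, `(7, 0)` are the
equality sign, negation, conjunction and disjunction. -/
def QF.str : QF → List (ℕ × ℕ)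
  | eq s t => (4, 0) :: (s.str ++ t.str)
  | not a => (5, 0) :: a.str
  | and a b => (6, 0) :: (a.str ++ b.str)
  | or a b => (7, 0) :: (a.str ++ b.str)

/-- The string is a true quantifier-free sentence of high-school arithmetic. -/
def Theory (w : List (ℕ × ℕ)) : Prop := ∃ φ : QF, φ.str = w ∧ φ.Holds

/-- The string consists of two formulas (one after the other) for the same polynomial. -/
def Identity (w : List (ℕ × ℕ)) : Prop :=
  ∃ s t : AF, s.str ++ t.str = w ∧ s.poly = t.poly

end Pool.Agent.Z85.HS
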