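import Pool.Agent.Z85.HS.Defs

/-!
# Kronecker substitution
-/

set_option autoImplicit false

namespace Pool.Agent.Z85.HS

open Polynomial

/-- polynomials with small coefficients are determined by one value -/
theorem digit_inj (B : ℕ) : ∀ (n : ℕ) (P Q : ℕ[X]), P.natDegree ≤ n → Q.natDegree ≤ n →
    (∀ k, P.coeff k < B) → (∀ k, Q.coeff k < B) → P.eval B = Q.eval B → P = Q := by
  intro n
  induction n with
  | zero =>
    intro P Q hP hQ h1 h2 h
    rw [eq_C_of_natDegree_le_zero hP, eq_C_of_natDegree_le_zero hQ] at h ⊢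
    simpa using h
  | succ n ih =>
    intro P Q hP hQ h1 h2 h
    rw [← divX_mul_X_add P, ← divX_mul_X_add Q] at h
    simp only [eval_add, eval_mul, eval_X, eval_C] at h
    have hB : 0 < B := (Nat.zero_le _).trans_lt (h1 0)
    have e0 : P.coeff 0 = Q.coeff 0 := by
      have := congrArg (· % B) h
      simpa [Nat.add_mod, Nat.mul_mod_left, Nat.mod_eq_of_lt (h1 0), Nat.mod_eq_of_lt (h2 0)]
        using this
    have e1 : (divX P).eval B = (divX Q).eval B := by
      rw [e0] at h
      exact Nat.eq_of_mul_eq_mul_right hB (Nat.add_right_cancel h)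
    have hd : ∀ R : ℕ[X], R.natDegree ≤ n + 1 → (divX R).natDegree ≤ n := by
      intro R hR
      rw [natDegree_divX_eq_natDegree_tsub_one]; omega
    have e2 : divX P = divX Q := ih _ _ (hd P hP) (hd Q hQ)
      (fun k => by rw [coeff_divX]; exact h1 _) (fun k => by rw [coeff_divX]; exact h2 _) e1
    rw [← divX_mul_X_add P, ← divX_mul_X_add Q, e2, e0]

/-- the univariate polynomial with given coefficients -/
noncomputable def ofM (m : ℕ →₀ ℕ) : ℕ[X] := m.sum fun i c => C c * X ^ i

theorem coeff_ofM (m : ℕ →₀ ℕ) (k : ℕ) : (ofM m).coeff k = m k := by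
  unfold ofM Finsupp.sum
  rw [finsetSum_coeff]
  simp only [coeff_C_mul, coeff_X_pow]
  by_cases hk : k ∈ m.support
  · rw [Finset.sum_eq_single k]
    · simp
    · intro b _ hb; simp [Ne.symm hb]
    · intro h; exact absurd hk h
  · rw [Finset.sum_eq_zero]
    · exact (Finsupp.notMem_support_iff.1 hk).symm
    · intro b hb
      have : k ≠ b := fun h => hk (h ▸ hb)
      simp [this]

theorem eval_ofM (m : ℕ →₀ ℕ) (B : ℕ) : (ofM m).eval B = m.sum fun i c => c * B ^ i := by
  unfold ofM Finsupp.sum
  rw [eval_finsetSum]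
  simp

/-- finitely supported families of digits are determined by the number -/
theorem fin_inj (B : ℕ) (m m' : ℕ →₀ ℕ) (h1 : ∀ k, m k < B) (h2 : ∀ k, m' k < B)
    (h : (m.sum fun i c => c * B ^ i) = m'.sum fun i c => c * B ^ i) : m = m' := by
  rw [← eval_ofM, ← eval_ofM] at h
  have := digit_inj B _ (ofM m) (ofM m') (le_max_left _ _) (le_max_right _ _)
    (fun k => by rw [coeff_ofM]; exact h1 k) (fun k => by rw [coeff_ofM]; exact h2 k) h
  ext k
  rw [← coeff_ofM, this, coeff_ofM]

/-- the Kronecker exponent of a monomial -/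
noncomputable def ke (D : ℕ) (m : ℕ →₀ ℕ) : ℕ := m.sum fun i c => c * D ^ i

/-- polynomials with small exponents and coefficients are determined by one value -/
theorem kron_inj (D B : ℕ) (p q : MvPolynomial ℕ ℕ)
    (hp : ∀ m ∈ p.support, ∀ i, m i < D) (hq : ∀ m ∈ q.support, ∀ i, m i < D)
    (hpc : ∀ m, p.coeff m < B) (hqc : ∀ m, q.coeff m < B)
    (h : MvPolynomial.eval (fun i => B ^ (D ^ i)) p = MvPolynomial.eval (fun i => B ^ (D ^ i)) q) :
    p = q := by
  classical
  -- the image as a finitely supported family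
  have key : ∀ r : MvPolynomial ℕ ℕ, MvPolynomial.eval (fun i => B ^ (D ^ i)) r =
      ((r.support.sum fun m => Finsupp.single (ke D m) (r.coeff m)) : ℕ →₀ ℕ).sum
        fun i c => c * B ^ i := by
    intro r
    rw [MvPolynomial.eval_eq]
    rw [← Finsupp.sum_finsetSum_index (fun i => by simp) (fun i a b => by ring)]
    refine Finset.sum_congr rfl fun m _ => ?_
    rw [Finsupp.sum_single_index (by simp)]
    congr 1
    unfold ke Finsupp.sum
    rw [← Finset.prod_pow_eq_pow_sum]
    refine Finset.prod_congr rfl fun i _ => ?_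
    rw [← pow_mul, mul_comm]
  have hval : ∀ (r : MvPolynomial ℕ ℕ), (∀ m ∈ r.support, ∀ i, m i < D) →
      ∀ m : ℕ →₀ ℕ, (∀ i, m i < D) →
      ((r.support.sum fun m => Finsupp.single (ke D m) (r.coeff m)) : ℕ →₀ ℕ) (ke D m) =
        r.coeff m := by
    intro r hr m hm
    rw [Finsupp.finsetSum_apply]
    by_cases hms : m ∈ r.support
    · rw [Finset.sum_eq_single m]
      · simp
      · intro m' hm' hne
        have : ke D m' ≠ ke D m := fun he => hne (fin_inj D m' m (hr m' hm') hm he)
        simp [Finsupp.single_apply, this]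
      · intro h; exact absurd hms h
    · rw [Finset.sum_eq_zero]
      · exact (MvPolynomial.notMem_support_iff.1 hms).symm
      · intro m' hm'
        have : ke D m' ≠ ke D m := fun he => hms (fin_inj D m' m (hr m' hm') hm he ▸ hm')
        simp [Finsupp.single_apply, this]
  have hlt : ∀ (r : MvPolynomial ℕ ℕ), (∀ m ∈ r.support, ∀ i, m i < D) → (∀ m, r.coeff m < B) →
      ∀ k, ((r.support.sum fun m => Finsupp.single (ke D m) (r.coeff m)) : ℕ →₀ ℕ) k < B := by
    intro r hr hc k
    by_cases hk : ∃ m ∈ r.support, ke D m = k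
    · obtain ⟨m, hm, rfl⟩ := hk
      rw [hval r hr m (hr m hm)]
      exact hc m
    · rw [Finsupp.finsetSum_apply, Finset.sum_eq_zero]
      · exact (Nat.zero_le _).trans_lt (hc 0)
      · intro m hm
        have : ke D m ≠ k := fun he => hk ⟨m, hm, he⟩
        simp [Finsupp.single_apply, this]
  rw [key, key] at h
  have h3 := fin_inj B _ _ (hlt p hp hpc) (hlt q hq hqc) h
  ext m
  by_cases hm : ∀ i, m i < D
  · rw [← hval p hp m hm, h3, hval q hq m hm]
  · have h4 : m ∉ p.support := fun h => hm (hp m h)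
    have h5 : m ∉ q.support := fun h => hm (hq m h)
    rw [MvPolynomial.notMem_support_iff.1 h4, MvPolynomial.notMem_support_iff.1 h5]

end Pool.Agent.Z85.HS
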