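import Pool.Agent.Z85.HS.Kron
import Pool.Agent.H671R2.PolyAuto
import Pool.Agent.NPC.Dec

/-!
# The reduction of polynomial identity testing for formulas to high-school arithmetic
-/

set_option autoImplicit false

namespace Pool.Agent.Z85.HS

open Pool.Agent.NPC

/-- the image of a symbol -/
def g (L : ℕ) (x : ℕ × ℕ) : List (ℕ × ℕ) :=
  if x.1 = 0 then [(3, 0), (3, 0), (2, 0), (0, L + 1), (0, x.2 + 1), (0, 2), (0, 2)]
  else if x.1 = 1 ∧ x.2 ≠ 0 then [(0, x.2)]
  else if x.1 = 2 ∧ x.2 = 0 then [(1, 0)]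
  else if x.1 = 3 ∧ x.2 = 0 then [(2, 0)]
  else if x.1 = 4 ∧ x.2 ≠ 0 then [(3, 0), (0, x.2)]
  else [(9, 0)]

/-- the size of a string, counting numbers with their values -/
def sz (w : List (ℕ × ℕ)) : ℕ := (w.map (fun x => x.2 + 1)).sum

/-- the reduction -/
def red (w : List (ℕ × ℕ)) : List (ℕ × ℕ) := (4, 0) :: w.flatMap (g (sz w))

theorem poly_red : Poly red := by
  unfold red g sz
  fun_prop

/-- the term of a formula -/
def sub (L : ℕ) : AF → HT
  | .var i => .pow (.const 2) (.pow (.const 2) (.mul (.const L.succPNat) (.const i.succPNat)))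
  | .const n => .const n
  | .add a b => .add (sub L a) (sub L b)
  | .mul a b => .mul (sub L a) (sub L b)
  | .pow n a => .pow (sub L a) (.const n)

theorem str_sub (L : ℕ) (s : AF) : (sub L s).str = s.str.flatMap (g L) := by
  induction s with
  | var i => simp [sub, HT.str, AF.str, g]
  | const n => simp [sub, HT.str, AF.str, g]
  | add a b iha ihb => simp [sub, HT.str, AF.str, g, iha, ihb]
  | mul a b iha ihb => simp [sub, HT.str, AF.str, g, iha, ihb]
  | pow n a iha => simp [sub, HT.str, AF.str, g, iha]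

theorem HT.str_inj : ∀ (a b : HT) (r s : List (ℕ × ℕ)), a.str ++ r = b.str ++ s → a = b ∧ r = s := by
  intro a
  induction a with
  | const n =>
    intro b r s h
    cases b with
    | const m => simp [HT.str] at h; exact ⟨by rw [h.1], h.2⟩
    | add _ _ => simp [HT.str] at h
    | mul _ _ => simp [HT.str] at h
    | pow _ _ => simp [HT.str] at h
  | add a1 a2 ih1 ih2 =>
    intro b r s h
    cases b with
    | add b1 b2 =>
      simp only [HT.str, List.cons_append, List.append_assoc, List.cons.injEq, true_and] at h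
      obtain ⟨h1, h2⟩ := ih1 _ _ _ h
      obtain ⟨h3, h4⟩ := ih2 _ _ _ h2
      exact ⟨by rw [h1, h3], h4⟩
    | const m => simp [HT.str] at h
    | mul _ _ => simp [HT.str] at h
    | pow _ _ => simp [HT.str] at h
  | mul a1 a2 ih1 ih2 =>
    intro b r s h
    cases b with
    | mul b1 b2 =>
      simp only [HT.str, List.cons_append, List.append_assoc, List.cons.injEq, true_and] at h
      obtain ⟨h1, h2⟩ := ih1 _ _ _ h
      obtain ⟨h3, h4⟩ := ih2 _ _ _ h2
      exact ⟨by rw [h1, h3], h4⟩
    | const m => simp [HT.str] at h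
    | add _ _ => simp [HT.str] at h
    | pow _ _ => simp [HT.str] at h
  | pow a1 a2 ih1 ih2 =>
    intro b r s h
    cases b with
    | pow b1 b2 =>
      simp only [HT.str, List.cons_append, List.append_assoc, List.cons.injEq, true_and] at h
      obtain ⟨h3, h2⟩ := ih2 _ _ _ h
      obtain ⟨h1, h4⟩ := ih1 _ _ _ h2
      exact ⟨by rw [h1, h3], h4⟩
    | const m => simp [HT.str] at h
    | add _ _ => simp [HT.str] at h
    | mul _ _ => simp [HT.str] at h

theorem g_cases (L : ℕ) (x : ℕ × ℕ) : (∃ i, x = (0, i) ∧ g L x = (sub L (.var i)).str) ∨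
    (∃ n : ℕ+, x = (1, (n : ℕ)) ∧ g L x = (HT.const n).str) ∨ (x = (2, 0) ∧ g L x = [(1, 0)]) ∨
    (x = (3, 0) ∧ g L x = [(2, 0)]) ∨
    (∃ n : ℕ+, x = (4, (n : ℕ)) ∧ g L x = [(3, 0), (0, (n : ℕ))]) ∨ g L x = [(9, 0)] := by
  obtain ⟨a, b⟩ := x
  unfold g
  split_ifs with h1 h2 h3 h4 h5
  · left; dsimp only at h1; subst h1; exact ⟨b, rfl, by simp [sub, HT.str]⟩
  · right; left; dsimp only at h2
    obtain ⟨rfl, hb⟩ := h2
    exact ⟨⟨b, Nat.pos_of_ne_zero hb⟩, rfl, rfl⟩
  · right; right; left; dsimp only at h3; rw [h3.1, h3.2]; exact ⟨rfl, rfl⟩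
  · right; right; right; left; dsimp only at h4; rw [h4.1, h4.2]; exact ⟨rfl, rfl⟩
  · right; right; right; right; left
    dsimp only at h5
    obtain ⟨rfl, hb⟩ := h5
    exact ⟨⟨b, Nat.pos_of_ne_zero hb⟩, rfl, rfl⟩
  · right; right; right; right; right; rfl

theorem head_ne (u : HT) (r w : List (ℕ × ℕ)) : (9, 0) :: w ≠ u.str ++ r := by
  cases u <;> simp [HT.str]

theorem parse (L : ℕ) : ∀ (n : ℕ) (w : List (ℕ × ℕ)), w.length ≤ n → ∀ (u : HT) (r : List (ℕ × ℕ)),
    w.flatMap (g L) = u.str ++ r →
    ∃ (s : AF) (w' : List (ℕ × ℕ)), w = s.str ++ w' ∧ sub L s = u ∧ w'.flatMap (g L) = r := by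
  intro n
  induction n with
  | zero =>
    intro w hw u r h
    rw [List.length_eq_zero_iff.1 (Nat.le_zero.1 hw)] at h
    cases u <;> simp [HT.str] at h
  | succ n ih =>
    intro w hw u r h
    cases w with
    | nil => cases u <;> simp [HT.str] at h
    | cons x w =>
      rw [List.length_cons] at hw
      rw [List.flatMap_cons] at h
      rcases g_cases L x with ⟨i, rfl, hg⟩ | ⟨n, rfl, hg⟩ | ⟨rfl, hg⟩ | ⟨rfl, hg⟩ | ⟨n, rfl, hg⟩ | hg
      · rw [hg] at h
        obtain ⟨h1, h2⟩ := HT.str_inj _ _ _ _ h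
        exact ⟨.var i, w, rfl, h1, h2⟩
      · rw [hg] at h
        obtain ⟨h1, h2⟩ := HT.str_inj _ _ _ _ h
        exact ⟨.const n, w, rfl, h1, h2⟩
      · rw [hg] at h
        cases u with
        | const m => simp [HT.str] at h
        | mul _ _ => simp [HT.str] at h
        | pow _ _ => simp [HT.str] at h
        | add u1 u2 =>
          simp only [HT.str, List.cons_append, List.append_assoc, List.cons.injEq, true_and,
            List.nil_append] at h
          obtain ⟨s1, w1, e1, e2, e3⟩ := ih w (by omega) u1 _ h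
          obtain ⟨s2, w2, e4, e5, e6⟩ := ih w1 (by
            have := congrArg List.length e1; rw [List.length_append] at this; omega) u2 _ e3
          exact ⟨.add s1 s2, w2, by simp [AF.str, e1, e4], by simp [sub, e2, e5], e6⟩
      · rw [hg] at h
        cases u with
        | const m => simp [HT.str] at h
        | add _ _ => simp [HT.str] at h
        | pow _ _ => simp [HT.str] at h
        | mul u1 u2 =>
          simp only [HT.str, List.cons_append, List.append_assoc, List.cons.injEq, true_and,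
            List.nil_append] at h
          obtain ⟨s1, w1, e1, e2, e3⟩ := ih w (by omega) u1 _ h
          obtain ⟨s2, w2, e4, e5, e6⟩ := ih w1 (by
            have := congrArg List.length e1; rw [List.length_append] at this; omega) u2 _ e3
          exact ⟨.mul s1 s2, w2, by simp [AF.str, e1, e4], by simp [sub, e2, e5], e6⟩
      · rw [hg] at h
        cases u with
        | const m => simp [HT.str] at h
        | add _ _ => simp [HT.str] at h
        | mul _ _ => simp [HT.str] at h
        | pow u1 u2 =>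
          simp only [HT.str, List.cons_append, List.append_assoc, List.cons.injEq, true_and,
            List.nil_append] at h
          have h' : (HT.const n).str ++ w.flatMap (g L) = u2.str ++ (u1.str ++ r) := by
            simpa [HT.str] using h
          obtain ⟨h1, h2⟩ := HT.str_inj _ _ _ _ h'
          obtain ⟨s1, w1, e1, e2, e3⟩ := ih w (by omega) u1 _ h2
          exact ⟨.pow n s1, w1, by simp [AF.str, e1], by simp [sub, e2, h1], e3⟩
      · rw [hg] at h
        exact absurd h (head_ne u r _)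

theorem g_ne_nil (L : ℕ) (x : ℕ × ℕ) : g L x ≠ [] := by
  unfold g
  split_ifs <;> simp

/-- the polynomial with natural coefficients -/
noncomputable def npoly : AF → MvPolynomial ℕ ℕ
  | .var i => MvPolynomial.X i
  | .const n => MvPolynomial.C (n : ℕ)
  | .add a b => npoly a + npoly b
  | .mul a b => npoly a * npoly b
  | .pow n a => npoly a ^ (n : ℕ)

theorem poly_eq (s : AF) : s.poly = MvPolynomial.map (Nat.castRingHom ℤ) (npoly s) := by
  induction s with
  | var i => simp [AF.poly, npoly]
  | const n => simp [AF.poly, npoly]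
  | add a b iha ihb => simp [AF.poly, npoly, iha, ihb]
  | mul a b iha ihb => simp [AF.poly, npoly, iha, ihb]
  | pow n a iha => simp [AF.poly, npoly, iha]

theorem poly_eq_iff (s t : AF) : s.poly = t.poly ↔ npoly s = npoly t := by
  rw [poly_eq, poly_eq]
  exact (MvPolynomial.map_injective _ Nat.cast_injective).eq_iff

theorem coeff_le_eval (p : MvPolynomial ℕ ℕ) (m : ℕ →₀ ℕ) :
    p.coeff m ≤ MvPolynomial.eval (fun _ => 1) p := by
  rw [MvPolynomial.eval_eq]
  by_cases h : m ∈ p.support
  · refine le_trans ?_ (Finset.single_le_sum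
      (f := fun d => p.coeff d * ∏ i ∈ d.support, (1 : ℕ) ^ d i) (fun _ _ => Nat.zero_le _) h)
    simp
  · rw [MvPolynomial.notMem_support_iff.1 h]; exact Nat.zero_le _

theorem sz_cons (x : ℕ × ℕ) (w : List (ℕ × ℕ)) : sz (x :: w) = x.2 + 1 + sz w := by
  simp [sz]

theorem sz_append (v w : List (ℕ × ℕ)) : sz (v ++ w) = sz v + sz w := by
  simp [sz]

theorem sz_pos (s : AF) : 1 ≤ sz s.str := by
  cases s <;> simp only [AF.str, sz_cons] <;> omega

theorem two_pow_add (a b : ℕ) : 2 ^ a + 2 ^ b ≤ 2 ^ (a + b + 1) := by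
  have h1 : 2 ^ a ≤ 2 ^ (a + b) := Nat.pow_le_pow_right (by norm_num) (by omega)
  have h2 : 2 ^ b ≤ 2 ^ (a + b) := Nat.pow_le_pow_right (by norm_num) (by omega)
  rw [pow_succ]
  omega

theorem eval_one_le (s : AF) : MvPolynomial.eval (fun _ => 1) (npoly s) ≤ 2 ^ 2 ^ sz s.str := by
  induction s with
  | var i => simpa [npoly] using Nat.one_le_two_pow
  | const n =>
    simp only [npoly, MvPolynomial.eval_C, AF.str, sz_cons]
    have h1 : (n : ℕ) < 2 ^ (n : ℕ) := Nat.lt_two_pow_self
    have h2 : 2 ^ (n : ℕ) ≤ 2 ^ 2 ^ (n : ℕ) := Nat.pow_le_pow_right (by norm_num) h1.le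
    have h3 : 2 ^ 2 ^ (n : ℕ) ≤ 2 ^ 2 ^ ((n : ℕ) + 1 + sz []) :=
      Nat.pow_le_pow_right (by norm_num) (Nat.pow_le_pow_right (by norm_num) (by omega))
    omega
  | add a b iha ihb =>
    simp only [npoly, map_add, AF.str, sz_cons, sz_append]
    refine (Nat.add_le_add iha ihb).trans ((two_pow_add _ _).trans ?_)
    refine Nat.pow_le_pow_right (by norm_num) ?_
    have ha := sz_pos a
    have hb := sz_pos b
    have h1 : 2 ^ (sz a.str + 1) ≤ 2 ^ (sz a.str + sz b.str) :=
      Nat.pow_le_pow_right (by norm_num) (by omega)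
    have h2 : 2 ^ (sz b.str + 1) ≤ 2 ^ (sz a.str + sz b.str) :=
      Nat.pow_le_pow_right (by norm_num) (by omega)
    have h3 : 2 ^ (0 + 1 + (sz a.str + sz b.str)) = 2 * 2 ^ (sz a.str + sz b.str) := by
      rw [zero_add, pow_add]; ring
    rw [pow_succ] at h1 h2
    rw [h3]
    have h4 : 1 ≤ 2 ^ sz a.str := Nat.one_le_two_pow
    omega
  | mul a b iha ihb =>
    simp only [npoly, map_mul, AF.str, sz_cons, sz_append]
    refine (Nat.mul_le_mul iha ihb).trans ?_
    rw [← pow_add]
    refine Nat.pow_le_pow_right (by norm_num) ((two_pow_add _ _).trans ?_)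
    exact Nat.pow_le_pow_right (by norm_num) (by omega)
  | pow n a iha =>
    simp only [npoly, map_pow, AF.str, sz_cons]
    refine (Nat.pow_le_pow_left iha _).trans ?_
    rw [← pow_mul]
    refine Nat.pow_le_pow_right (by norm_num) ?_
    calc 2 ^ sz a.str * (n : ℕ) ≤ 2 ^ sz a.str * 2 ^ (n : ℕ) :=
          Nat.mul_le_mul_left _ Nat.lt_two_pow_self.le
      _ = 2 ^ (sz a.str + n) := (pow_add _ _ _).symm
      _ ≤ _ := Nat.pow_le_pow_right (by norm_num) (by omega)

theorem deg_le (s : AF) : (npoly s).totalDegree ≤ 2 ^ sz s.str := by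
  induction s with
  | var i => simpa [npoly] using Nat.one_le_two_pow
  | const n =>
    rw [npoly, MvPolynomial.totalDegree_C]
    exact Nat.zero_le _
  | add a b iha ihb =>
    simp only [npoly, AF.str, sz_cons, sz_append]
    refine (MvPolynomial.totalDegree_add _ _).trans (max_le (iha.trans ?_) (ihb.trans ?_))
    · exact Nat.pow_le_pow_right (by norm_num) (by omega)
    · exact Nat.pow_le_pow_right (by norm_num) (by omega)
  | mul a b iha ihb =>
    simp only [npoly, AF.str, sz_cons, sz_append]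
    refine (MvPolynomial.totalDegree_mul _ _).trans ((Nat.add_le_add iha ihb).trans
      ((two_pow_add _ _).trans ?_))
    exact Nat.pow_le_pow_right (by norm_num) (by omega)
  | pow n a iha =>
    simp only [npoly, AF.str, sz_cons]
    refine (MvPolynomial.totalDegree_pow _ _).trans ?_
    calc (n : ℕ) * (npoly a).totalDegree ≤ 2 ^ (n : ℕ) * 2 ^ sz a.str :=
          Nat.mul_le_mul Nat.lt_two_pow_self.le iha
      _ = 2 ^ (n + sz a.str) := (pow_add _ _ _).symm
      _ ≤ _ := Nat.pow_le_pow_right (by norm_num) (by omega)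

theorem exp_le {p : MvPolynomial ℕ ℕ} {m : ℕ →₀ ℕ} (h : m ∈ p.support) (i : ℕ) :
    m i ≤ p.totalDegree := by
  refine le_trans ?_ (MvPolynomial.le_totalDegree h)
  by_cases hi : i ∈ m.support
  · exact Finset.single_le_sum (f := fun i => m i) (fun _ _ => Nat.zero_le _) hi
  · rw [Finsupp.notMem_support_iff.1 hi]; exact Nat.zero_le _

theorem val_sub (L : ℕ) (s : AF) : ((sub L s).val : ℕ) =
    MvPolynomial.eval (fun i => (2 ^ 2 ^ (L + 1)) ^ ((2 ^ (L + 1)) ^ i)) (npoly s) := by
  induction s with
  | var i =>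
    simp only [sub, HT.val, npoly, MvPolynomial.eval_X, PNat.pow_coe, PNat.mul_coe,
      Nat.succPNat_coe, PNat.val_ofNat, Nat.succ_eq_add_one]
    rw [← pow_mul, ← pow_mul, ← pow_add]
    congr 2
    ring
  | const n => simp [sub, HT.val, npoly]
  | add a b iha ihb => simp [sub, HT.val, npoly, iha, ihb]
  | mul a b iha ihb => simp [sub, HT.val, npoly, iha, ihb]
  | pow n a iha => simp [sub, HT.val, npoly, iha]

theorem lt_aux {a L : ℕ} (h : a ≤ L) : 2 ^ a < 2 ^ (L + 1) :=
  Nat.pow_lt_pow_right (by norm_num) (by omega)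

theorem val_iff (L : ℕ) (s t : AF) (hs : sz s.str ≤ L) (ht : sz t.str ≤ L) :
    (sub L s).val = (sub L t).val ↔ s.poly = t.poly := by
  rw [poly_eq_iff]
  constructor
  · intro h
    have h1 := congrArg (fun x : ℕ+ => (x : ℕ)) h
    simp only [val_sub] at h1
    refine kron_inj (2 ^ (L + 1)) (2 ^ 2 ^ (L + 1)) _ _ ?_ ?_ ?_ ?_ h1
    · intro m hm i
      exact ((exp_le hm i).trans (deg_le s)).trans_lt (lt_aux hs)
    · intro m hm i
      exact ((exp_le hm i).trans (deg_le t)).trans_lt (lt_aux ht)
    · intro m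
      refine ((coeff_le_eval _ m).trans (eval_one_le s)).trans_lt ?_
      exact Nat.pow_lt_pow_right (by norm_num) (lt_aux hs)
    · intro m
      refine ((coeff_le_eval _ m).trans (eval_one_le t)).trans_lt ?_
      exact Nat.pow_lt_pow_right (by norm_num) (lt_aux ht)
  · intro h
    apply PNat.coe_injective
    rw [val_sub, val_sub, h]

theorem red_iff (w : List (ℕ × ℕ)) : Identity w ↔ Theory (red w) := by
  constructor
  · rintro ⟨s, t, rfl, h⟩
    refine ⟨.eq (sub (sz (s.str ++ t.str)) s) (sub (sz (s.str ++ t.str)) t), ?_,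
      (val_iff (sz (s.str ++ t.str)) s t ?_ ?_).2 h⟩
    · rw [QF.str, str_sub, str_sub, red, List.flatMap_append]
    · rw [sz_append]; omega
    · rw [sz_append]; omega
  · rintro ⟨φ, h, hφ⟩
    cases φ with
    | not a => simp [QF.str, red] at h
    | and a b => simp [QF.str, red] at h
    | or a b => simp [QF.str, red] at h
    | eq u v =>
      rw [QF.str, red, List.cons.injEq] at h
      obtain ⟨s, w1, e1, e2, e3⟩ := parse _ _ w le_rfl u v.str h.2.symm
      obtain ⟨t, w2, e4, e5, e6⟩ := parse _ _ w1 le_rfl v [] (by rw [e3, List.append_nil])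
      have e7 : w2 = [] := by
        cases w2 with
        | nil => rfl
        | cons x l =>
          rw [List.flatMap_cons, List.append_eq_nil_iff] at e6
          exact absurd e6.1 (g_ne_nil _ _)
      rw [e7, List.append_nil] at e4
      rw [e4] at e1
      refine ⟨s, t, e1.symm, ?_⟩
      have hl : sz s.str + sz t.str = sz w := by rw [e1, sz_append]
      refine (val_iff (sz w) s t (by omega) (by omega)).1 ?_
      rw [e2, e5]
      exact hφ

end Pool.Agent.Z85.HS
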